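import Pool.Agent.H560R3.SO.All
import Pool.Agent.H560R3.SO.BC
import Pool.Agent.H560R3.SO.BD
import Pool.Agent.H560R3.SO.BG
import Pool.Agent.H560R3.SO.BIN
import Pool.Agent.H560R3.SO.BIN0
import Pool.Agent.H560R3.SO.CAT
import Pool.Agent.H560R3.SO.CNF
import Pool.Agent.H560R3.SO.CORE
import Pool.Agent.H560R3.SO.EMB
import Pool.Agent.H560R3.SO.ENU
import Pool.Agent.H560R3.SO.FINB
import Pool.Agent.H560R3.SO.HH
import Pool.Agent.H560R3.SO.HTcount
import Pool.Agent.H560R3.SO.HTinit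
import Pool.Agent.H560R3.SO.HTmap
import Pool.Agent.H560R3.SO.HTsplit
import Pool.Agent.H560R3.SO.HTsub
import Pool.Agent.H560R3.SO.HTsum
import Pool.Agent.H560R3.SO.LAB
import Pool.Agent.H560R3.SO.LH
import Pool.Agent.H560R3.SO.LL
import Pool.Agent.H560R3.SO.NA
import Pool.Agent.H560R3.SO.NB
import Pool.Agent.H560R3.SO.NC
import Pool.Agent.H560R3.SO.ND
import Pool.Agent.H560R3.SO.NE
import Pool.Agent.H560R3.SO.NEC
import Pool.Agent.H560R3.SO.NF
import Pool.Agent.H560R3.SO.RK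
import Pool.Agent.H560R3.SO.SUF
import Pool.Agent.H560R3.SO.TL
import Pool.Agent.H560R3.SO.TYPE
import Pool.Agent.H560R3.SO.VAL

/-!
# All order types of well-ordered shift orbits of binary sequences (MP_c20855_lc, Q1)

`sv b i` is the real number with binary digits `b i, b (i + 1), ...`, `shiftSet b` is the set of all
`sv b i`, and `HasType s α` says that the set `s` of reals is well-ordered with order type `α`.

The ordinals which occur are exactly the finite ordinals `n ≥ 1` and the ordinals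
`ω ^ (μ + 1) * p + ρ` with `μ` countable, `1 ≤ μ`, `1 ≤ p < ω`, `ρ < ω ^ (μ + 1)` and `ρ = 0` if
`p = 1`.
-/

set_option autoImplicit false

namespace Pool.Agent.Results.MP_c20855_lc.AllOrderTypes

open Ordinal Pool.Agent.H560R3.SO

theorem core : S_CORE := t_CORE t_LAB t_ENU t_CAT t_RK t_EMB

theorem bin : S_BIN := t_BIN (t_BIN0 t_CAT) t_BC t_TL t_NF t_LL t_LH t_HH t_BD t_BG

theorem suf : S_SUF := t_SUF core bin t_CNF t_VAL t_TYPE

theorem nec : S_NEC :=
  t_NEC t_NA (t_NB t_HTsub t_HTmap t_HTsplit t_HTinit)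
    (t_NC t_HTsub t_HTmap t_HTsplit t_HTinit)
    (t_ND t_HTsub t_HTmap t_HTsplit t_HTsum) t_NE t_HTcount

/-- the complete list of the order types of well-ordered sets `A(b)` -/
theorem result (α : Ordinal.{0}) :
    (∃ b : ℕ → Bool, HasType (shiftSet b) α) ↔
      (∃ n : ℕ, 1 ≤ n ∧ α = (n : Ordinal.{0})) ∨
      ∃ (μ : Ordinal.{0}) (p : ℕ) (ρ : Ordinal.{0}), 1 ≤ μ ∧ μ.card ≤ Cardinal.aleph0 ∧ 1 ≤ p ∧
        ρ < ω ^ (μ + 1) ∧ (p = 1 → ρ = 0) ∧ α = ω ^ (μ + 1) * (p : Ordinal.{0}) + ρ :=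
  classification t_FINB suf nec α

end Pool.Agent.Results.MP_c20855_lc.AllOrderTypes
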